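import Mathlib

/-!
Free groups are residually finite.
-/

namespace Pool.Agent.Helper68.FR

theorem exists_perm_of_rel {A : Type*} [Fintype A] (R : A → A → Prop)
    (h1 : ∀ x y y', R x y → R x y' → y = y') (h2 : ∀ x x' y, R x y → R x' y → x = x') :
    ∃ π : Equiv.Perm A, ∀ x y, R x y → π x = y := by
  classical
  let f : A → A := fun x => if h : ∃ y, R x y then h.choose else x
  have hf : ∀ x y, R x y → f x = y := by
    intro x y h
    have h3 : ∃ y, R x y := ⟨y, h⟩
    simp only [f, dif_pos h3]
    exact h1 x _ _ h3.choose_spec h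
  have hinj : Set.InjOn f ((Finset.univ.filter fun x => ∃ y, R x y : Finset A) : Set A) := by
    intro x hx x' hx' he
    simp only [Finset.coe_filter, Finset.mem_univ, true_and, Set.mem_ofPred_eq] at hx hx'
    obtain ⟨y, hy⟩ := hx
    obtain ⟨y', hy'⟩ := hx'
    rw [hf x y hy, hf x' y' hy'] at he
    rw [← he] at hy'
    exact h2 x x' y hy hy'
  obtain ⟨g, hg⟩ := Finset.exists_equiv_extend_of_card_eq (t := (Finset.univ : Finset A))
    (by rw [Finset.card_univ]) (Finset.subset_univ _) hinj
  refine ⟨g.trans (Equiv.subtypeUnivEquiv (fun x => Finset.mem_univ x)), fun x y h => ?_⟩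
  have h4 := hg x (by
    rw [Finset.mem_filter]
    exact ⟨Finset.mem_univ _, y, h⟩)
  rw [← hf x y h, ← h4]
  rfl

theorem free_rf {α : Type*} (w : FreeGroup α) (hw : w ≠ 1) :
    ∃ M : Subgroup (FreeGroup α), M.FiniteIndex ∧ w ∉ M := by
  classical
  let L := w.toWord
  have hred : ∀ (i : ℕ) (x y : α × Bool), L[i]? = some x → L[i + 1]? = some y →
      x.1 = y.1 → x.2 = y.2 := by
    intro i x y hx hy
    have h1 : FreeGroup.IsReduced L := FreeGroup.isReduced_toWord
    rw [FreeGroup.IsReduced, List.isChain_iff_getElem] at h1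
    obtain ⟨hi, rfl⟩ := List.getElem?_eq_some_iff.mp hx
    obtain ⟨hi', rfl⟩ := List.getElem?_eq_some_iff.mp hy
    exact h1 i hi'
  let R : α → Fin (L.length + 1) → Fin (L.length + 1) → Prop := fun a j j' =>
    (L[j'.val]? = some (a, true) ∧ j.val = j'.val + 1) ∨
      (L[j.val]? = some (a, false) ∧ j'.val = j.val + 1)
  have hR : ∀ a, ∃ π : Equiv.Perm (Fin (L.length + 1)), ∀ x y, R a x y → π x = y := by
    intro a
    apply exists_perm_of_rel
    · rintro x y y' (⟨h1, h2⟩ | ⟨h1, h2⟩) (⟨h3, h4⟩ | ⟨h3, h4⟩)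
      · apply Fin.ext
        omega
      · exfalso
        rw [h2] at h3
        exact absurd (hred _ _ _ h1 h3 rfl) (by simp)
      · exfalso
        rw [h4] at h1
        exact absurd (hred _ _ _ h3 h1 rfl) (by simp)
      · apply Fin.ext
        omega
    · rintro x x' y (⟨h1, h2⟩ | ⟨h1, h2⟩) (⟨h3, h4⟩ | ⟨h3, h4⟩)
      · apply Fin.ext
        omega
      · exfalso
        rw [h4] at h1
        exact absurd (hred _ _ _ h3 h1 rfl) (by simp)
      · exfalso
        rw [h2] at h3
        exact absurd (hred _ _ _ h1 h3 rfl) (by simp)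
      · apply Fin.ext
        omega
  choose π hπ using hR
  let Θ : FreeGroup α →* Equiv.Perm (Fin (L.length + 1)) := FreeGroup.lift π
  have key : ∀ L2 L1 : List (α × Bool), L1 ++ L2 = L →
      ((Θ (FreeGroup.mk L2)) (Fin.last _)).val = L1.length := by
    intro L2
    induction L2 with
    | nil =>
      intro L1 h
      have e : (FreeGroup.mk ([] : List (α × Bool))) = 1 := rfl
      rw [e, map_one, Equiv.Perm.one_apply]
      rw [← h]
      simp
    | cons c L2 ih =>
      intro L1 h
      have h1 := ih (L1 ++ [c]) (by rw [← h]; simp)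
      have hlen : L1.length < L.length := by
        rw [← h]
        simp
      have hget : L[L1.length]? = some c := by
        rw [← h]
        simp
      obtain ⟨a, b⟩ := c
      have e : FreeGroup.mk ((a, b) :: L2) = FreeGroup.mk [(a, b)] * FreeGroup.mk L2 := rfl
      rw [e, map_mul, Equiv.Perm.mul_apply]
      rw [List.length_append, List.length_singleton] at h1
      set j := (Θ (FreeGroup.mk L2)) (Fin.last _) with hj
      cases b with
      | true =>
        have e2 : Θ (FreeGroup.mk [(a, true)]) = π a := FreeGroup.lift_apply_of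
        rw [e2, hπ a j ⟨L1.length, by omega⟩ (Or.inl ⟨hget, h1⟩)]
      | false =>
        have e2 : Θ (FreeGroup.mk [(a, false)]) = (π a)⁻¹ := by
          have : FreeGroup.mk [(a, false)] = (FreeGroup.of a)⁻¹ := rfl
          have h9 : Θ (FreeGroup.of a) = π a := FreeGroup.lift_apply_of
          rw [this, map_inv, h9]
        have h5 : π a ⟨L1.length, by omega⟩ = j := hπ a _ _ (Or.inr ⟨hget, h1⟩)
        rw [e2, ← h5]
        simp
  have h0 := key L [] rfl
  have hL : L ≠ [] := by
    intro h
    exact hw (FreeGroup.toWord_eq_nil_iff.mp h)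
  refine ⟨Θ.ker, Subgroup.finiteIndex_ker Θ, ?_⟩
  · intro h
    have h6 : (Θ w) (Fin.last _) = Fin.last _ := by
      rw [MonoidHom.mem_ker.mp h, Equiv.Perm.one_apply]
    have h7 : FreeGroup.mk L = w := FreeGroup.mk_toWord
    rw [h7, h6] at h0
    simp only [Fin.val_last, List.length_nil] at h0
    exact hL (List.length_eq_zero_iff.mp h0)

end Pool.Agent.Helper68.FR
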