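import Mathlib

/-!
Two tuples of a finite group which satisfy the same relations are conjugate in the symmetric group of
the group (acting by right multiplication).
-/

namespace Pool.Agent.Helper68.FR

/-- Right multiplication by the inverse. -/
def rho {A : Type*} [Group A] : A →* Equiv.Perm A where
  toFun g := Equiv.mulRight g⁻¹
  map_one' := by
    ext x
    simp
  map_mul' a b := by
    ext x
    simp [mul_assoc]

theorem rho_apply {A : Type*} [Group A] (g x : A) : rho g x = x * g⁻¹ := rfl

theorem rho_injective {A : Type*} [Group A] : Function.Injective (rho : A →* Equiv.Perm A) := by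
  intro a b h
  have h1 := congrArg (fun e : Equiv.Perm A => e 1) h
  simp only [rho_apply, one_mul] at h1
  exact inv_injective h1

/-- The decomposition of a group into the cosets of a subgroup. -/
noncomputable def dec {A : Type*} [Group A] (U : Subgroup A) : A ≃ (A ⧸ U) × U where
  toFun x := ((x : A ⧸ U), ⟨((x : A ⧸ U).out)⁻¹ * x, by
    rw [← QuotientGroup.eq]
    exact QuotientGroup.out_eq' _⟩)
  invFun p := p.1.out * p.2
  left_inv x := by simp
  right_inv p := by
    obtain ⟨q, u⟩ := p
    have h : ((q.out * (u : A) : A) : A ⧸ U) = q := by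
      rw [QuotientGroup.mk_mul_of_mem _ u.2]
      exact QuotientGroup.out_eq' _
    ext
    · exact h
    · simp [h]

theorem dec_mul {A : Type*} [Group A] (U : Subgroup A) (x : A) (u : U) :
    dec U (x * (u : A)) = ((dec U x).1, (dec U x).2 * u) := by
  have h : ((x * (u : A) : A) : A ⧸ U) = (x : A ⧸ U) := QuotientGroup.mk_mul_of_mem _ u.2
  ext
  · exact h
  · simp only [dec, Equiv.coe_fn_mk, Subgroup.coe_mul, h, mul_assoc]

theorem dec_symm_mul {A : Type*} [Group A] (U : Subgroup A) (q : A ⧸ U) (u u' : U) :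
    (dec U).symm (q, u * u') = (dec U).symm (q, u) * (u' : A) := by
  simp [dec, mul_assoc]

theorem exists_conj_sub {A : Type*} [Group A] [Finite A] (U V : Subgroup A) (θ : U ≃* V) :
    ∃ π : Equiv.Perm A, ∀ u : U, ∀ x : A, π (x * (θ u : A)) = π x * (u : A) := by
  classical
  have hcard : Nat.card (A ⧸ V) = Nat.card (A ⧸ U) := by
    have h1 := Subgroup.card_eq_card_quotient_mul_card_subgroup U
    have h2 := Subgroup.card_eq_card_quotient_mul_card_subgroup V
    have h3 : Nat.card U = Nat.card V := Nat.card_congr θ.toEquiv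
    have h4 : 0 < Nat.card V := Nat.card_pos
    rw [h3] at h1
    exact Nat.eq_of_mul_eq_mul_right h4 (by rw [← h1, ← h2])
  have σ : (A ⧸ V) ≃ (A ⧸ U) := (Finite.card_eq.mp hcard).some
  refine ⟨((dec V).trans (Equiv.prodCongr σ θ.symm.toEquiv)).trans (dec U).symm, fun u x => ?_⟩
  simp only [Equiv.trans_apply]
  rw [dec_mul, ← dec_symm_mul]
  congr 1
  ext
  · rfl
  · simp

/-- Two tuples of a finite group with the same relations are conjugate by a permutation. -/
theorem exists_conj {A ι : Type*} [Group A] [Finite A] (a b : ι → A)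
    (h : ∀ w : FreeGroup ι, FreeGroup.lift a w = 1 ↔ FreeGroup.lift b w = 1) :
    ∃ π : Equiv.Perm A, ∀ i, π⁻¹ * rho (a i) * π = rho (b i) := by
  let fa : FreeGroup ι →* A := FreeGroup.lift a
  let fb : FreeGroup ι →* A := FreeGroup.lift b
  have hk : fa.ker = fb.ker := by
    ext w
    exact h w
  let ea := QuotientGroup.quotientKerEquivRange fa
  let eb := QuotientGroup.quotientKerEquivRange fb
  let θ : fa.range ≃* fb.range :=
    (ea.symm.trans (QuotientGroup.quotientMulEquivOfEq hk)).trans eb
  have hθ : ∀ w : FreeGroup ι, ((θ ⟨fa w, w, rfl⟩ : fb.range) : A) = fb w := by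
    intro w
    have h1 : ea.symm ⟨fa w, w, rfl⟩ = (w : FreeGroup ι ⧸ fa.ker) := by
      rw [MulEquiv.symm_apply_eq]
      rfl
    change ((eb (QuotientGroup.quotientMulEquivOfEq hk (ea.symm ⟨fa w, w, rfl⟩)) : fb.range) : A)
      = fb w
    rw [h1]
    rfl
  obtain ⟨π, hπ⟩ := exists_conj_sub fa.range fb.range θ
  refine ⟨π, fun i => ?_⟩
  have h2 : rho (a i) * π = π * rho (b i) := by
    ext x
    rw [Equiv.Perm.mul_apply, Equiv.Perm.mul_apply, rho_apply, rho_apply]
    have h3 := hπ ⟨fa (FreeGroup.of i)⁻¹, _, rfl⟩ x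
    rw [hθ] at h3
    simp only [fa, fb, map_inv, FreeGroup.lift_apply_of] at h3
    exact h3.symm
  rw [mul_assoc, h2, inv_mul_cancel_left]

end Pool.Agent.Helper68.FR
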