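import Pool.Agent.Helper68.FR.Collapse

/-!
The iterated finite residuals of an extension of a group without proper subgroups of finite index.
-/

namespace Pool.Agent.Helper68.FR

theorem perfect_closure {G : Type*} [Group G] (ρ w : G) {e m n : ℤ} (hmn : |m - n| = 1)
    (h : (w⁻¹ * ρ * w) ^ (-e) * ρ ^ m * (w⁻¹ * ρ * w) ^ e * ρ ^ (-n) = 1) (K : Subgroup G)
    (hK : K.relIndex (Subgroup.normalClosure {ρ}) ≠ 0) : Subgroup.normalClosure {ρ} ≤ K := by
  classical
  set N := Subgroup.normalClosure ({ρ} : Set G) with hN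
  have hNn : N.Normal := Subgroup.normalClosure_normal
  let C : Subgroup N := (K.subgroupOf N).normalCore
  have hfi : (K.subgroupOf N).FiniteIndex := ⟨hK⟩
  have hC : C.FiniteIndex := Subgroup.finiteIndex_normalCore _
  have hQ : Finite (N ⧸ C) := Subgroup.finite_quotient_of_finiteIndex
  have hmem : ∀ g : G, g⁻¹ * ρ * g ∈ N := by
    intro g
    have h1 := hNn.conj_mem ρ (Subgroup.subset_normalClosure rfl) g⁻¹
    rwa [inv_inv] at h1
  let x : G → N ⧸ C := fun g => QuotientGroup.mk' C ⟨g⁻¹ * ρ * g, hmem g⟩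
  have hrel : ∀ g : G, (x (w * g) ^ e)⁻¹ * x g ^ m * x (w * g) ^ e = x g ^ n := by
    intro g
    have h1 : (w⁻¹ * ρ * w) ^ (-e) * ρ ^ m * (w⁻¹ * ρ * w) ^ e = ρ ^ n := by
      have h2 := mul_eq_one_iff_eq_inv.mp h
      rw [h2, zpow_neg, inv_inv]
    have h3 : (⟨(w * g)⁻¹ * ρ * (w * g), hmem (w * g)⟩ : N) ^ (-e) *
        (⟨g⁻¹ * ρ * g, hmem g⟩ : N) ^ m * (⟨(w * g)⁻¹ * ρ * (w * g), hmem (w * g)⟩ : N) ^ e =
        (⟨g⁻¹ * ρ * g, hmem g⟩ : N) ^ n := by
      apply Subtype.ext
      push_cast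
      have h4 : (w * g)⁻¹ * ρ * (w * g) = g⁻¹ * (w⁻¹ * ρ * w) * g := by group
      rw [h4, conj_zpow' g (w⁻¹ * ρ * w) (-e), conj_zpow' g ρ m, conj_zpow' g (w⁻¹ * ρ * w) e,
        conj_zpow' g ρ n, ← h1]
      group
    have h5 := congrArg (QuotientGroup.mk' C) h3
    rw [map_mul, map_mul, map_zpow, map_zpow, map_zpow, map_zpow, zpow_neg] at h5
    exact h5
  have hx := collapse x (fun g => w * g) hmn hrel
  have hsub : ∀ g : G, g⁻¹ * ρ * g ∈ K := by
    intro g
    have h1 : (⟨g⁻¹ * ρ * g, hmem g⟩ : N) ∈ C := by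
      rw [← QuotientGroup.ker_mk' C, MonoidHom.mem_ker]
      exact hx g
    have h2 : (⟨g⁻¹ * ρ * g, hmem g⟩ : N) ∈ K.subgroupOf N := Subgroup.normalCore_le _ h1
    exact h2
  rw [hN]
  change Subgroup.closure _ ≤ K
  rw [Subgroup.closure_le]
  intro y hy
  rw [Group.mem_conjugatesOfSet_iff] at hy
  obtain ⟨a, ha, hay⟩ := hy
  rw [Set.mem_singleton_iff] at ha
  subst ha
  obtain ⟨c, hc⟩ := isConj_iff.mp hay
  have := hsub c⁻¹
  rw [inv_inv, hc] at this
  exact this

theorem fres_comap {G G' : Type*} [Group G] [Group G'] (π : G →* G')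
    (hπ : Function.Surjective π)
    (hN : ∀ K : Subgroup G, K.relIndex π.ker ≠ 0 → π.ker ≤ K) (H : Subgroup G') :
    fres (H.comap π) = (fres H).comap π := by
  ext x
  rw [Subgroup.mem_comap, mem_fres, mem_fres]
  constructor
  · intro hx L hL hi
    refine hx (L.comap π) (Subgroup.comap_mono hL) ?_
    change (L.comap π).relIndex (H.comap π) ≠ 0
    rw [Subgroup.relIndex_comap, Subgroup.map_comap_eq_self_of_surjective hπ]
    exact hi
  · intro hx K hK hi
    have hker : π.ker ≤ K := by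
      apply hN
      have h1 : π.ker ≤ H.comap π := Subgroup.ker_le_comap π H
      have h2 : K.IsFiniteRelIndex (H.comap π) := ⟨hi⟩
      have h3 : K.IsFiniteRelIndex π.ker := Subgroup.isFiniteRelIndex_of_le_right _ h1
      exact Subgroup.relIndex_ne_zero
    have hKeq : (K.map π).comap π = K := Subgroup.comap_map_eq_self hker
    have h1 : π x ∈ K.map π := by
      apply hx
      · rw [Subgroup.map_le_iff_le_comap]
        exact hK
      · change (K.map π).relIndex H ≠ 0
        have h2 := Subgroup.relIndex_comap (K.map π) π (H.comap π)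
        rw [Subgroup.map_comap_eq_self_of_surjective hπ] at h2
        rw [← h2, hKeq]
        exact hi
    rw [← hKeq]
    exact h1

theorem fch_comap {G G' : Type*} [Group G] [Group G'] (π : G →* G')
    (hπ : Function.Surjective π)
    (hN : ∀ K : Subgroup G, K.relIndex π.ker ≠ 0 → π.ker ≤ K) (j : ℕ) :
    fch G j = (fch G' j).comap π := by
  induction j with
  | zero => rfl
  | succ j ih =>
    change fres (fch G j) = (fres (fch G' j)).comap π
    rw [ih, fres_comap π hπ hN]

end Pool.Agent.Helper68.FR
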