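import Pool.Agent.Helper68.FR.Defs

/-!
Families of elements of a finite group in which a power of every member is conjugated to a
neighbouring power by a power of another member consist of trivial elements.
-/

namespace Pool.Agent.Helper68.FR

theorem conj_zpow' {Q : Type*} [Group Q] (v z : Q) (k : ℤ) :
    (v⁻¹ * z * v) ^ k = v⁻¹ * z ^ k * v := by
  have h := conj_zpow (a := v⁻¹) (b := z) (i := k)
  rwa [inv_inv] at h

theorem conj_iter {Q : Type*} [Group Q] (v z : Q) (c : ℤ) (h : v⁻¹ * z * v = z ^ c) (o : ℕ) :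
    (v ^ o)⁻¹ * z * v ^ o = z ^ (c ^ o) := by
  induction o with
  | zero => simp
  | succ o ih =>
    have h1 : (v ^ (o + 1))⁻¹ * z * v ^ (o + 1) = v⁻¹ * ((v ^ o)⁻¹ * z * v ^ o) * v := by
      rw [pow_succ]; group
    rw [h1, ih, ← conj_zpow', h, ← zpow_mul, pow_succ, mul_comm]

theorem collapse_step {Q : Type*} [Group Q] [Finite Q] {x y : Q} {e m n : ℤ}
    (hmn : |m - n| = 1) (h : (y ^ e)⁻¹ * x ^ m * y ^ e = x ^ n) {p : ℕ} (hp : p.Prime)
    (hx : p ∣ orderOf x) : ∃ q : ℕ, q.Prime ∧ q < p ∧ q ∣ orderOf y := by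
  obtain ⟨d, hd⟩ := hx
  have hox : 0 < orderOf x := orderOf_pos x
  have hd0 : d ≠ 0 := by
    rintro rfl
    rw [hd] at hox
    simp at hox
  have hz : orderOf (x ^ d) = p := by
    rw [orderOf_pow_of_dvd hd0 ⟨p, by rw [hd, mul_comm]⟩, hd]
    exact Nat.mul_div_cancel _ (Nat.pos_of_ne_zero hd0)
  set z := x ^ d with hzdef
  set v := y ^ e with hvdef
  have hzrel : v⁻¹ * z ^ m * v = z ^ n := by
    have h1 := congrArg (fun u => u ^ (d : ℤ)) h
    simp only [conj_zpow'] at h1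
    rw [← zpow_mul, ← zpow_mul, mul_comm m, mul_comm n, zpow_mul, zpow_mul, zpow_natCast] at h1
    exact h1
  have hdvd : ∀ a : ℤ, z ^ a = 1 ↔ (p : ℤ) ∣ a := by
    intro a
    rw [← hz]
    exact orderOf_dvd_iff_zpow_eq_one.symm
  have hpm : ¬ (p : ℤ) ∣ m - n := by
    intro hdiv
    have h1 : (p : ℤ) ∣ 1 := by
      rw [← hmn]
      exact (dvd_abs _ _).mpr hdiv
    have h2 : p ∣ 1 := by exact_mod_cast h1
    exact hp.one_lt.ne' (Nat.dvd_one.mp h2)
  have hm : ¬ (p : ℤ) ∣ m := by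
    intro hd1
    have h1 := hzrel
    rw [(hdvd m).mpr hd1] at h1
    have h2 : z ^ n = 1 := by rw [← h1]; group
    exact hpm (dvd_sub hd1 ((hdvd n).mp h2))
  have hn : ¬ (p : ℤ) ∣ n := by
    intro hd1
    have h1 := hzrel
    rw [(hdvd n).mpr hd1] at h1
    have h2 : z ^ m = 1 := by
      have h3 : z ^ m = v * (v⁻¹ * z ^ m * v) * v⁻¹ := by group
      rw [h3, h1]; group
    exact hpm (dvd_sub ((hdvd m).mp h2) hd1)
  have : Fact p.Prime := ⟨hp⟩
  have hm' : (m : ZMod p) ≠ 0 := by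
    rw [Ne, ZMod.intCast_zmod_eq_zero_iff_dvd]
    exact hm
  have hn' : (n : ZMod p) ≠ 0 := by
    rw [Ne, ZMod.intCast_zmod_eq_zero_iff_dvd]
    exact hn
  obtain ⟨m', hm''⟩ : ∃ m' : ℤ, (m' : ZMod p) = (m : ZMod p)⁻¹ :=
    ⟨((m : ZMod p)⁻¹).val, by simp⟩
  have hzeq : ∀ a b : ℤ, (a : ZMod p) = (b : ZMod p) → z ^ a = z ^ b := by
    intro a b hab
    have h1 : (p : ℤ) ∣ a - b := by
      rw [← ZMod.intCast_zmod_eq_zero_iff_dvd]
      push_cast
      rw [hab, sub_self]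
    have h2 := (hdvd (a - b)).mpr h1
    rw [zpow_sub] at h2
    exact mul_inv_eq_one.mp h2
  have hc : v⁻¹ * z * v = z ^ (n * m') := by
    have h1 : z = z ^ (m * m') := by
      have := hzeq 1 (m * m') (by push_cast; rw [hm'', mul_inv_cancel₀ hm'])
      rwa [zpow_one] at this
    calc v⁻¹ * z * v = v⁻¹ * z ^ (m * m') * v := by rw [← h1]
      _ = (v⁻¹ * z ^ m * v) ^ m' := by rw [conj_zpow', zpow_mul]
      _ = z ^ (n * m') := by rw [hzrel, zpow_mul]
  have hit := conj_iter v z (n * m') hc (orderOf v)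
  rw [pow_orderOf_eq_one] at hit
  have hit2 : z ^ ((n * m') ^ orderOf v - 1) = 1 := by
    rw [zpow_sub, ← hit, zpow_one]; group
  have hit3 : ((n : ZMod p) * (m : ZMod p)⁻¹) ^ orderOf v = 1 := by
    have h1 := (hdvd _).mp hit2
    rw [← ZMod.intCast_zmod_eq_zero_iff_dvd] at h1
    push_cast at h1
    rw [hm''] at h1
    exact sub_eq_zero.mp h1
  set c : ZMod p := (n : ZMod p) * (m : ZMod p)⁻¹ with hcdef
  have hc0 : c ≠ 0 := mul_ne_zero hn' (inv_ne_zero hm')
  have hc1 : c ≠ 1 := by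
    intro h1
    apply hpm
    rw [← ZMod.intCast_zmod_eq_zero_iff_dvd]
    push_cast
    have h2 : (n : ZMod p) = m := by
      have h3 : (n : ZMod p) = c * m := by
        rw [hcdef, mul_assoc, inv_mul_cancel₀ hm', mul_one]
      rw [h3, h1, one_mul]
    rw [h2, sub_self]
  have ho1 : orderOf c ≠ 1 := fun h1 => hc1 (orderOf_eq_one_iff.mp h1)
  have hoc : orderOf c ∣ orderOf v := orderOf_dvd_of_pow_eq_one hit3
  have hop : orderOf c ∣ p - 1 := orderOf_dvd_of_pow_eq_one (ZMod.pow_card_sub_one_eq_one hc0)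
  refine ⟨(orderOf c).minFac, Nat.minFac_prime ho1, ?_, ?_⟩
  · have h1 : (orderOf c).minFac ∣ p - 1 := (Nat.minFac_dvd _).trans hop
    have h2 : 0 < p - 1 := by have := hp.two_le; omega
    have h3 := Nat.le_of_dvd h2 h1
    omega
  · exact (Nat.minFac_dvd _).trans (hoc.trans (orderOf_dvd_of_pow_eq_one (by
      rw [hvdef, ← zpow_natCast, zpow_comm, zpow_natCast, pow_orderOf_eq_one, one_zpow])))

theorem collapse {Q : Type*} [Group Q] [Finite Q] {ι : Type*} (x : ι → Q) (s : ι → ι)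
    {e m n : ℤ} (hmn : |m - n| = 1)
    (h : ∀ i, (x (s i) ^ e)⁻¹ * x i ^ m * x (s i) ^ e = x i ^ n) (i : ι) : x i = 1 := by
  have key : ∀ p : ℕ, p.Prime → ∀ i, ¬ p ∣ orderOf (x i) := by
    intro p
    induction p using Nat.strong_induction_on with
    | _ p ih =>
      intro hp i hi
      obtain ⟨q, hq, hqp, hqi⟩ := collapse_step hmn (h i) hp hi
      exact ih q hqp hq (s i) hqi
  by_contra hne
  have h1 : orderOf (x i) ≠ 1 := fun h1 => hne (orderOf_eq_one_iff.mp h1)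
  obtain ⟨p, hp, hpd⟩ := Nat.exists_prime_and_dvd h1
  exact key p hp i hpd

end Pool.Agent.Helper68.FR
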