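import Pool.Agent.Helper68.FR.Pattern

/-!
A finite quotient of the kernel of a homomorphism of a finitely presented group onto a free group is
dominated, at a given element, by a finite quotient of the whole group.
-/

namespace Pool.Agent.Helper68.FR

theorem core {G : Type*} [Group G] {n : ℕ} (pres : FreeGroup (Fin n) →* G)
    (hs : Function.Surjective pres) (S : Set (FreeGroup (Fin n))) (hS : S.Finite)
    (hker : Subgroup.normalClosure S = pres.ker)
    {Y : Type*} [Finite Y] (ψ : G →* FreeGroup Y) (hψ : Function.Surjective ψ)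
    {Q : Type*} [Group Q] [Finite Q] (φ : ψ.ker →* Q) (k : ψ.ker) (hk : φ k ≠ 1) :
    ∃ M : Subgroup G, M.FiniteIndex ∧ (k : G) ∉ M := by
  classical
  -- a section
  choose sec hsec using fun y : Y => hψ (FreeGroup.of y)
  let s : FreeGroup Y →* G := FreeGroup.lift sec
  have hs1 : ∀ g, ψ (s g) = g := by
    have : (ψ.comp s) = MonoidHom.id _ := by
      ext y
      simp [s, hsec]
    intro g
    exact DFunLike.congr_fun this g
  let cj : FreeGroup Y → ψ.ker → ψ.ker := fun h u =>
    ⟨(s h)⁻¹ * u * s h, by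
      rw [MonoidHom.mem_ker, map_mul, map_mul, MonoidHom.mem_ker.mp u.2]
      simp⟩
  have cj_mul : ∀ h u v, cj h (u * v) = cj h u * cj h v := by
    intro h u v
    ext
    simp [cj, mul_assoc]
  have cj_cj : ∀ g h u, cj h (cj g u) = cj (g * h) u := by
    intro g h u
    ext
    simp [cj, mul_assoc]
  have cj_one : ∀ u, cj 1 u = u := by
    intro u
    ext
    simp [cj]
  let ps : FreeGroup (Fin n) →* FreeGroup Y := ψ.comp pres
  let κ : FreeGroup (Fin n) → ψ.ker := fun w =>
    ⟨pres w * (s (ps w))⁻¹, by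
      rw [MonoidHom.mem_ker, map_mul, map_inv, hs1]
      simp [ps]⟩
  let A : FreeGroup Y → Fin n → Q := fun g x => φ (cj g (κ (FreeGroup.of x)))
  -- words
  obtain ⟨w0, hw0⟩ := hs (k : G)
  let W : Set (List (Fin n × Bool)) := FreeGroup.toWord '' (insert w0 S)
  have hW : W.Finite := (hS.insert w0).image _
  let Gs : Set (FreeGroup Y) := ⋃ L ∈ W, {t | ∃ p ∈ L.inits, (ps (FreeGroup.mk p))⁻¹ = t}
  have hGs : Gs.Finite := by
    refine hW.biUnion fun L _ => ?_
    exact ((List.finite_toSet L.inits).image (fun p => (ps (FreeGroup.mk p))⁻¹)).subset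
      fun t ht => by
        obtain ⟨p, hp, rfl⟩ := ht
        exact ⟨p, hp, rfl⟩
  obtain ⟨H, hH, h1H, P, hP⟩ := exists_pattern A Gs hGs
  have : Finite H := hH.to_subtype
  let Φ : ψ.ker →* (H → Q) := 
    { toFun := fun u h => φ (cj h u)
      map_one' := by
        funext h
        have : cj h 1 = 1 := by
          ext
          simp [cj]
        simp [this]
      map_mul' := fun u v => by
        funext h
        simp [cj_mul] }
  have hΦ : ∀ g x, (fun h : H => A (g * h) x) = Φ (cj g (κ (FreeGroup.of x))) := by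
    intro g x
    funext h
    change φ (cj (g * h) _) = φ (cj h (cj g _))
    rw [cj_cj]
  let Θ : FreeGroup (Fin n) →* Equiv.Perm (H → Q) :=
    FreeGroup.lift fun x => rho (Φ (κ (FreeGroup.of x))) * P (ps (FreeGroup.of x))
  have hΘ : ∀ x, Θ (FreeGroup.of x) = rho (Φ (κ (FreeGroup.of x))) * P (ps (FreeGroup.of x)) :=
    fun x => FreeGroup.lift_apply_of
  have hcomm : ∀ g ∈ Gs, ∀ x, (P g)⁻¹ * rho (Φ (κ (FreeGroup.of x))) * P g =
      rho (Φ (cj g (κ (FreeGroup.of x)))) := by
    intro g hg x
    have h := hP g hg x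
    rw [hΦ, hΦ, cj_one] at h
    exact h
  let Rh : FreeGroup (Fin n) → Equiv.Perm (H → Q) := fun w => rho (Φ (κ w)) * P (ps w)
  have hstep : ∀ w x, (ps w)⁻¹ ∈ Gs → Rh (w * FreeGroup.of x) = Rh w * Θ (FreeGroup.of x) := by
    intro w x hw
    have e1 : κ (w * FreeGroup.of x) = κ w * cj (ps w)⁻¹ (κ (FreeGroup.of x)) := by
      ext
      simp only [κ, cj, map_mul, mul_inv_rev, map_inv, inv_inv, Subgroup.coe_mul]
      group
    have e2 := hcomm _ hw x
    rw [map_inv, inv_inv] at e2
    change rho (Φ (κ (w * FreeGroup.of x))) * P (ps (w * FreeGroup.of x)) =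
      rho (Φ (κ w)) * P (ps w) * Θ (FreeGroup.of x)
    rw [e1, hΘ, map_mul, map_mul, ← e2, map_mul ps, map_mul P]
    group
  have key : ∀ L : List (Fin n × Bool), (∀ p ∈ L.inits, (ps (FreeGroup.mk p))⁻¹ ∈ Gs) →
      Θ (FreeGroup.mk L) = Rh (FreeGroup.mk L) := by
    intro L
    induction L using List.reverseRecOn with
    | nil =>
      intro _
      have e : (FreeGroup.mk ([] : List (Fin n × Bool))) = 1 := rfl
      have e2 : κ 1 = 1 := by
        ext
        simp [κ]
      simp only [Rh]
      rw [e, e2, map_one, map_one, map_one, map_one, map_one]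
      simp
    | append_singleton L a ih =>
      intro hL
      have hL1 : ∀ p ∈ L.inits, (ps (FreeGroup.mk p))⁻¹ ∈ Gs := by
        intro p hp
        apply hL
        rw [List.mem_inits] at hp ⊢
        exact hp.trans ⟨_, rfl⟩
      have h1 := ih hL1
      have h2 : (ps (FreeGroup.mk L))⁻¹ ∈ Gs := hL1 L (by rw [List.mem_inits])
      have h3 : (ps (FreeGroup.mk (L ++ [a])))⁻¹ ∈ Gs := hL _ (by rw [List.mem_inits])
      obtain ⟨x, b⟩ := a
      cases b with
      | true =>
        have e : FreeGroup.mk (L ++ [(x, true)]) = FreeGroup.mk L * FreeGroup.of x := rfl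
        rw [e, hstep _ _ h2, map_mul, h1]
      | false =>
        have e : FreeGroup.mk (L ++ [(x, false)]) = FreeGroup.mk L * (FreeGroup.of x)⁻¹ := rfl
        rw [e] at h3 ⊢
        have h4 := hstep _ x h3
        rw [inv_mul_cancel_right] at h4
        rw [map_mul, map_inv, h1, h4, mul_inv_cancel_right]
  have hmem : ∀ w ∈ insert w0 S, Θ w = Rh w := by
    intro w hw
    have h := key w.toWord (fun p hp => Set.mem_biUnion (Set.mem_image_of_mem _ hw) ⟨p, hp, rfl⟩)
    rwa [FreeGroup.mk_toWord] at h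
  have hle : pres.ker ≤ Θ.ker := by
    rw [← hker]
    apply Subgroup.normalClosure_le_normal
    intro w hw
    have hw1 : pres w = 1 := by
      have : w ∈ pres.ker := by
        rw [← hker]
        exact Subgroup.subset_normalClosure hw
      exact this
    have hw2 : ps w = 1 := by simp [ps, hw1]
    have hw3 : κ w = 1 := by
      ext
      simp [κ, hw1, hw2]
    change Θ w = 1
    rw [hmem w (Or.inr hw)]
    simp only [Rh]
    rw [hw3, hw2]
    simp
  have hw0' : Θ w0 ≠ 1 := by
    have hw2 : ps w0 = 1 := by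
      change ψ (pres w0) = 1
      rw [hw0]
      exact k.2
    have hw3 : κ w0 = k := by
      ext
      simp [κ, hw2, hw0]
    rw [hmem w0 (Or.inl rfl)]
    simp only [Rh]
    rw [hw3, hw2, map_one, mul_one]
    intro h
    have h5 : Φ k = 1 := rho_injective (by rw [h, map_one])
    have h6 := congrFun h5 ⟨1, h1H⟩
    apply hk
    have h7 : φ (cj 1 k) = 1 := h6
    rwa [cj_one] at h7
  refine ⟨Θ.ker.map pres, ?_, ?_⟩
  · have h10 : Θ.ker.FiniteIndex := Subgroup.finiteIndex_ker Θ
    refine ⟨fun h11 => h10.index_ne_zero ?_⟩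
    have h12 := Subgroup.index_map_dvd (H := Θ.ker) hs
    rw [h11] at h12
    exact Nat.eq_zero_of_zero_dvd h12
  · rintro ⟨v, hv, hv2⟩
    apply hw0'
    have h8 : v⁻¹ * w0 ∈ pres.ker := by
      rw [MonoidHom.mem_ker, map_mul, map_inv, hv2, hw0, inv_mul_cancel]
    have h9 := hle h8
    rw [MonoidHom.mem_ker, map_mul, map_inv, MonoidHom.mem_ker.mp hv, inv_one, one_mul] at h9
    exact h9

end Pool.Agent.Helper68.FR
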