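import Mathlib

/-!
Iterated finite residuals.
-/

open scoped Pointwise

namespace Pool.Agent.Helper68.FR

/-- The finite residual of the subgroup `H`: the intersection of all subgroups of `H` which have
finite index in `H`. -/
def fres {G : Type*} [Group G] (H : Subgroup G) : Subgroup G :=
  ⨅ (K : Subgroup G) (_ : K ≤ H) (_ : (K.subgroupOf H).index ≠ 0), K

/-- The chain `G, f G, f (f G), …` of the iterated finite residuals. -/
def fch (G : Type*) [Group G] : ℕ → Subgroup G
  | 0 => ⊤
  | n + 1 => fres (fch G n)

/-- A group with a free subgroup of finite index. -/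
def VirtuallyFree (P : Type*) [Group P] : Prop := ∃ M : Subgroup P, M.FiniteIndex ∧ IsFreeGroup M

theorem mem_fres {G : Type*} [Group G] {H : Subgroup G} {x : G} :
    x ∈ fres H ↔ ∀ K : Subgroup G, K ≤ H → (K.subgroupOf H).index ≠ 0 → x ∈ K := by
  simp only [fres, Subgroup.mem_iInf]

theorem fres_le {G : Type*} [Group G] (H : Subgroup G) : fres H ≤ H := by
  intro x hx
  refine mem_fres.mp hx H le_rfl ?_
  rw [Subgroup.subgroupOf_self, Subgroup.index_top]
  exact one_ne_zero

theorem fres_normal {G : Type*} [Group G] (H : Subgroup G) [hH : H.Normal] : (fres H).Normal := by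
  refine ⟨fun x hx g => ?_⟩
  rw [mem_fres] at hx ⊢
  intro K hK hi
  have h1 : x ∈ MulAut.conj g⁻¹ • K := by
    apply hx
    · have h2 : MulAut.conj g⁻¹ • H = H := Subgroup.Normal.conj_smul_eq_self g⁻¹ H
      rw [← h2]
      exact Subgroup.pointwise_smul_le_pointwise_smul_iff.mpr hK
    · have h2 : MulAut.conj g⁻¹ • H = H := Subgroup.Normal.conj_smul_eq_self g⁻¹ H
      change (MulAut.conj g⁻¹ • K).relIndex H ≠ 0
      rw [← h2, Subgroup.relIndex_pointwise_smul]
      exact hi
  rw [Subgroup.mem_pointwise_smul_iff_inv_smul_mem] at h1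
  simpa using h1

instance fch_normal (G : Type*) [Group G] (n : ℕ) : (fch G n).Normal := by
  induction n with
  | zero => exact Subgroup.normal_top
  | succ n ih => exact fres_normal _

theorem fch_succ_le (G : Type*) [Group G] (n : ℕ) : fch G (n + 1) ≤ fch G n := fres_le _

theorem fch_anti (G : Type*) [Group G] {m n : ℕ} (h : m ≤ n) : fch G n ≤ fch G m := by
  induction h with
  | refl => exact le_rfl
  | step _ ih => exact (fch_succ_le G _).trans ih

theorem fch_const (G : Type*) [Group G] {m : ℕ} (h : fch G m = fch G (m + 1)) {n : ℕ}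
    (hn : m ≤ n) : fch G n = fch G m := by
  induction hn with
  | refl => rfl
  | step _ ih =>
    change fres _ = _
    rw [ih]
    exact h.symm

end Pool.Agent.Helper68.FR
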