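import Mathlib

/-!
Subgroups of finite index of finitely presented groups are finitely presented.
-/

namespace Pool.Agent.Helper68.FR

theorem finite_of_fg {α : Type*} [h : Group.FG (FreeGroup α)] : Finite α := by
  classical
  obtain ⟨S, hS⟩ := Group.fg_def.mp h
  let α0 : Set α := ⋃ w ∈ (S : Set (FreeGroup α)), {a | ∃ b, (a, b) ∈ w.toWord}
  have hα0 : α0.Finite := by
    refine S.finite_toSet.biUnion fun w _ => ?_
    refine ((List.finite_toSet w.toWord).image Prod.fst).subset ?_
    rintro a ⟨b, hb⟩
    exact ⟨(a, b), hb, rfl⟩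
  let f : FreeGroup α →* Multiplicative (ZMod 2) :=
    FreeGroup.lift fun a => if a ∈ α0 then 1 else Multiplicative.ofAdd 1
  have hf : ∀ L : List (α × Bool), (∀ p ∈ L, p.1 ∈ α0) → f (FreeGroup.mk L) = 1 := by
    intro L hL
    simp only [f, FreeGroup.lift_mk]
    apply List.prod_eq_one
    intro x hx
    rw [List.mem_map] at hx
    obtain ⟨p, hp, rfl⟩ := hx
    have := hL p hp
    cases p.2 <;> simp [this]
  have h1 : (S : Set (FreeGroup α)) ⊆ f.ker := by
    intro w hw
    have h2 := hf w.toWord (fun p hp => Set.mem_biUnion hw ⟨p.2, hp⟩)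
    rw [FreeGroup.mk_toWord] at h2
    exact h2
  have h3 : f.ker = ⊤ := by
    rw [eq_top_iff, ← hS, Subgroup.closure_le]
    exact h1
  have h4 : ∀ a, a ∈ α0 := by
    intro a
    by_contra ha
    have h5 : f (FreeGroup.of a) = 1 := by
      have : FreeGroup.of a ∈ f.ker := by rw [h3]; trivial
      exact this
    simp only [f, FreeGroup.lift_apply_of, if_neg ha] at h5
    exact absurd h5 (by decide)
  have h6 : α0 = Set.univ := Set.eq_univ_of_forall h4
  rw [h6] at hα0
  exact Set.finite_univ_iff.mp hα0

theorem fp_free {F : Type*} [Group F] [IsFreeGroup F] [h : Group.FG F] :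
    Group.IsFinitelyPresented F := by
  let e := IsFreeGroup.toFreeGroup F
  have h1 : Group.FG (FreeGroup (IsFreeGroup.Generators F)) :=
    Group.fg_of_surjective (f := e.toMonoidHom) e.surjective
  have h2 : Finite (IsFreeGroup.Generators F) := finite_of_fg
  exact Group.IsFinitelyPresented.equiv e.symm

theorem fp_finiteIndex {G : Type*} [Group G] [hG : Group.IsFinitelyPresented G] (M : Subgroup G)
    [hM : M.FiniteIndex] : Group.IsFinitelyPresented M := by
  classical
  obtain ⟨n, pres, hs, S, hS, hker⟩ := hG.out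
  let N : Subgroup (FreeGroup (Fin n)) := M.comap pres
  have hN : N.FiniteIndex := by
    refine ⟨?_⟩
    rw [Subgroup.index_comap_of_surjective _ hs]
    exact hM.index_ne_zero
  have hfp : Group.IsFinitelyPresented N := fp_free
  let f : N →* M := pres.subgroupComap M
  have hf : Function.Surjective f := by
    rintro ⟨m, hm⟩
    obtain ⟨w, hw⟩ := hs m
    exact ⟨⟨w, by change pres w ∈ M; rw [hw]; exact hm⟩, Subtype.ext hw⟩
  refine Group.IsFinitelyPresented.of_surjective f hf ?_
  -- a finite set of representatives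
  have hfin : Finite (FreeGroup (Fin n) ⧸ N) := Subgroup.finite_quotient_of_finiteIndex
  have hSk : ∀ w ∈ S, pres w = 1 := by
    intro w hw
    have : w ∈ pres.ker := by
      rw [← hker]
      exact Subgroup.subset_normalClosure hw
    exact this
  let c : (FreeGroup (Fin n) ⧸ N) × S → N := fun p =>
    ⟨(p.1.out)⁻¹ * p.2 * p.1.out, by
      change pres _ ∈ M
      rw [map_mul, map_mul, hSk _ p.2.2]
      simp⟩
  have : Finite S := hS.to_subtype
  refine ⟨Set.range c, Set.finite_range c, ?_⟩
  apply le_antisymm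
  · apply Subgroup.normalClosure_le_normal
    rintro _ ⟨p, rfl⟩
    change f (c p) = 1
    ext
    change pres ((p.1.out)⁻¹ * p.2 * p.1.out) = 1
    rw [map_mul, map_mul, hSk _ p.2.2]
    simp
  · intro w hw
    have hw1 : (w : FreeGroup (Fin n)) ∈ Subgroup.normalClosure S := by
      rw [hker]
      exact congrArg Subtype.val hw
    have key : Subgroup.normalClosure S ≤ (Subgroup.normalClosure (Set.range c)).map N.subtype := by
      change Subgroup.closure (Group.conjugatesOfSet S) ≤ _
      rw [Subgroup.closure_le]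
      intro v hv
      rw [Group.mem_conjugatesOfSet_iff] at hv
      obtain ⟨a, ha, hconj⟩ := hv
      obtain ⟨g, hg⟩ := isConj_iff.mp hconj
      -- g = m * (out q)⁻¹
      let q : FreeGroup (Fin n) ⧸ N := ((g⁻¹ : FreeGroup (Fin n)) : FreeGroup (Fin n) ⧸ N)
      have hq : (q.out)⁻¹ * g⁻¹ ∈ N := by
        rw [← QuotientGroup.eq]
        exact QuotientGroup.out_eq' _
      let m : N := ⟨(q.out)⁻¹ * g⁻¹, hq⟩
      refine ⟨m⁻¹ * c (q, ⟨a, ha⟩) * m⁻¹⁻¹, ?_, ?_⟩
      · exact (Subgroup.normalClosure_normal (s := Set.range c)).conj_mem _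
          (Subgroup.subset_normalClosure ⟨_, rfl⟩) _
      · rw [← hg]
        simp only [Subgroup.subtype_apply, Subgroup.coe_mul, Subgroup.coe_inv, m, c]
        group
    obtain ⟨u, hu, hu2⟩ := key hw1
    have : u = w := Subtype.ext hu2
    rw [← this]
    exact hu

end Pool.Agent.Helper68.FR
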