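import Pool.Agent.Helper68.FR.Core
import Pool.Agent.Helper68.FR.FP
import Pool.Agent.Helper68.FR.FreeRF
import Pool.Agent.Helper68.FR.Defs

/-!
The finite residual of a finitely presented group and of a normal subgroup with virtually free quotient.
-/

namespace Pool.Agent.Helper68.FR

theorem fres_mono_top {G : Type*} [Group G] (K : Subgroup G) : fres K ≤ fres ⊤ := by
  intro x hx
  rw [mem_fres] at hx ⊢
  intro L _ hL
  have h1 : L.index ≠ 0 := by
    change L.relIndex ⊤ ≠ 0 at hL
    rwa [Subgroup.relIndex_top_right] at hL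
  have h2 := hx (L ⊓ K) inf_le_right (by
    change (L ⊓ K).relIndex K ≠ 0
    rw [Subgroup.inf_relIndex_right]
    have : L.FiniteIndex := ⟨h1⟩
    have : L.IsFiniteRelIndex K := Subgroup.isFiniteRelIndex_of_finiteIndex
    exact Subgroup.relIndex_ne_zero)
  exact h2.1

theorem mem_fres_top {G : Type*} [Group G] {x : G} (hx : x ∈ fres (⊤ : Subgroup G))
    (L : Subgroup G) (hL : L.FiniteIndex) : x ∈ L := by
  rw [mem_fres] at hx
  apply hx L le_top
  change L.relIndex ⊤ ≠ 0
  rw [Subgroup.relIndex_top_right]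
  exact hL.index_ne_zero

theorem fres_eq {G : Type*} [Group G] [hG : Group.IsFinitelyPresented G] (K : Subgroup G)
    [hK : K.Normal] (hvf : VirtuallyFree (G ⧸ K)) : fres K = fres ⊤ := by
  classical
  obtain ⟨M0, hM0, hfree⟩ := hvf
  let M : Subgroup G := M0.comap (QuotientGroup.mk' K)
  have hM : M.FiniteIndex := by
    refine ⟨?_⟩
    rw [Subgroup.index_comap_of_surjective _ (QuotientGroup.mk'_surjective K)]
    exact hM0.index_ne_zero
  have hMfp : Group.IsFinitelyPresented M := fp_finiteIndex M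
  obtain ⟨n, pres, hs, S, hS, hker⟩ := hMfp.out
  let f : M →* M0 := (QuotientGroup.mk' K).subgroupComap M0
  have hf : Function.Surjective f := by
    rintro ⟨m, hm⟩
    obtain ⟨w, hw⟩ := QuotientGroup.mk'_surjective K m
    exact ⟨⟨w, by change QuotientGroup.mk' K w ∈ M0; rw [hw]; exact hm⟩, Subtype.ext hw⟩
  let e := IsFreeGroup.toFreeGroup M0
  let ψ : M →* FreeGroup (IsFreeGroup.Generators M0) := e.toMonoidHom.comp f
  have hψ : Function.Surjective ψ := e.surjective.comp hf
  have hfin : Finite (IsFreeGroup.Generators M0) := by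
    have : Group.FG (FreeGroup (IsFreeGroup.Generators M0)) :=
      Group.fg_of_surjective (f := ψ.comp pres) (hψ.comp hs)
    exact finite_of_fg
  have hkerψ : ∀ m : M, ψ m = 1 ↔ (m : G) ∈ K := by
    intro m
    have h1 : ψ m = 1 ↔ f m = 1 := by
      change e (f m) = 1 ↔ _
      exact map_eq_one_iff e e.injective
    rw [h1, Subtype.ext_iff]
    change QuotientGroup.mk' K (m : G) = 1 ↔ _
    rw [← MonoidHom.mem_ker, QuotientGroup.ker_mk']
  -- from finite index subgroups of `M` to finite index subgroups of `G`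
  have tr : ∀ (x : M) (L : Subgroup M), L.FiniteIndex → (x : G) ∈ fres (⊤ : Subgroup G) →
      x ∈ L := by
    intro x L hL hx
    have h1 := mem_fres_top hx (L.map M.subtype) (by
      refine ⟨?_⟩
      rw [Subgroup.index_map_subtype]
      exact mul_ne_zero hL.index_ne_zero hM.index_ne_zero)
    obtain ⟨y, hy, hyx⟩ := h1
    have : y = x := Subtype.ext hyx
    rwa [this] at hy
  apply le_antisymm (fres_mono_top K)
  intro x hx
  have hxM : x ∈ M := mem_fres_top hx M hM
  have hxK : x ∈ K := by
    rw [← hkerψ ⟨x, hxM⟩]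
    by_contra h
    obtain ⟨N, hN, hxN⟩ := free_rf _ h
    apply hxN
    exact tr ⟨x, hxM⟩ (N.comap ψ) ⟨by
      rw [Subgroup.index_comap_of_surjective _ hψ]
      exact hN.index_ne_zero⟩ hx
  rw [mem_fres]
  intro K1 hK1 hi
  by_contra hxK1
  let C : Subgroup K := (K1.subgroupOf K).normalCore
  have hfi : (K1.subgroupOf K).FiniteIndex := ⟨hi⟩
  have hC : C.FiniteIndex := Subgroup.finiteIndex_normalCore _
  have hQ : Finite (K ⧸ C) := Subgroup.finite_quotient_of_finiteIndex
  let j : ψ.ker →* K :=
    { toFun := fun u => ⟨((u : M) : G), (hkerψ u).mp u.2⟩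
      map_one' := rfl
      map_mul' := fun u v => rfl }
  let φ : ψ.ker →* K ⧸ C := (QuotientGroup.mk' C).comp j
  let k : ψ.ker := ⟨⟨x, hxM⟩, (hkerψ ⟨x, hxM⟩).mpr hxK⟩
  have hk : φ k ≠ 1 := by
    intro h
    have h1 : j k ∈ C := by
      rw [← QuotientGroup.ker_mk' C, MonoidHom.mem_ker]
      exact h
    have h2 : j k ∈ K1.subgroupOf K := Subgroup.normalCore_le _ h1
    exact hxK1 h2
  obtain ⟨L, hL, hkL⟩ := core pres hs S hS hker ψ hψ φ k hk
  exact hkL (tr _ L hL hx)

/-- If some iterated finite residual has a virtually free quotient then the chain is constant from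
the first finite residual on. -/
theorem fch_eq {G : Type*} [Group G] [hG : Group.IsFinitelyPresented G] {m : ℕ} (hm : 1 ≤ m)
    (hvf : VirtuallyFree (G ⧸ fch G m)) {n : ℕ} (hn : 1 ≤ n) : fch G n = fch G 1 := by
  have h1 : fch G (m + 1) = fch G 1 := fres_eq (fch G m) hvf
  have h2 : fch G 1 = fch G 2 := by
    apply le_antisymm
    · rw [← h1]
      exact fch_anti G (by omega)
    · exact fch_anti G (by omega)
  exact fch_const G h2 hn

end Pool.Agent.Helper68.FR
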