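import Pool.Agent.Helper68.FR.Perm

/-!
Finite approximation of a pattern on a free group: the translates of a pattern on a finite window are
realised by conjugation inside a finite symmetric group.
-/

namespace Pool.Agent.Helper68.FR

theorem exists_reps {F C : Type*} [Finite C] (c : F → C) :
    ∃ S : Set F, S.Finite ∧ ∀ h : F, ∃ h' ∈ S, c h' = c h := by
  classical
  refine ⟨Set.range (fun v : Set.range c => Classical.choose v.2), Set.finite_range _, fun h => ?_⟩
  exact ⟨Classical.choose (⟨h, rfl⟩ : c h ∈ Set.range c), ⟨⟨c h, h, rfl⟩, rfl⟩,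
    Classical.choose_spec (⟨h, rfl⟩ : c h ∈ Set.range c)⟩

theorem lift_pi {ι H Q : Type*} [Group Q] (a : ι → H → Q) (w : FreeGroup ι) (h : H) :
    FreeGroup.lift a w h = FreeGroup.lift (fun i => a i h) w := by
  have h1 : (Pi.evalMonoidHom (fun _ : H => Q) h).comp (FreeGroup.lift a) =
      FreeGroup.lift (fun i => a i h) := by
    ext i
    simp
  exact DFunLike.congr_fun h1 w

theorem exists_pattern {X Y Q : Type*} [Finite X] [Finite Y] [Group Q] [Finite Q]
    (A : FreeGroup Y → X → Q) (G : Set (FreeGroup Y)) (hG : G.Finite) :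
    ∃ H : Set (FreeGroup Y), H.Finite ∧ (1 : FreeGroup Y) ∈ H ∧
      ∃ P : FreeGroup Y →* Equiv.Perm (H → Q), ∀ g ∈ G, ∀ x,
        (P g)⁻¹ * rho (fun h : H => A ((1 : FreeGroup Y) * h) x) * P g =
          rho (fun h : H => A (g * h) x) := by
  classical
  -- the window
  let T : Set (FreeGroup Y) := ⋃ g ∈ G, {t | ∃ p ∈ g.toWord.inits, FreeGroup.mk p = t}
  have hT : T.Finite := by
    refine hG.biUnion fun g _ => ?_
    exact ((List.finite_toSet g.toWord.inits).image FreeGroup.mk).subset fun t ht => by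
      obtain ⟨p, hp, rfl⟩ := ht
      exact ⟨p, hp, rfl⟩
  have : Finite T := hT.to_subtype
  let code : FreeGroup Y → (X × T → Q) := fun h i => A ((i.2 : FreeGroup Y) * h) i.1
  obtain ⟨S0, hS0, hS0'⟩ := exists_reps code
  choose S hS hS' using fun y : Y => exists_reps (fun h => code (FreeGroup.of y * h))
  let H : Set (FreeGroup Y) := {1} ∪ S0 ∪ ⋃ y, S y
  have hH : H.Finite := ((Set.finite_singleton _).union hS0).union (Set.finite_iUnion hS)
  have h1H : (1 : FreeGroup Y) ∈ H := Or.inl (Or.inl rfl)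
  have : Finite H := hH.to_subtype
  refine ⟨H, hH, h1H, ?_⟩
  let a : X × T → (H → Q) := fun i h => A ((i.2 : FreeGroup Y) * h) i.1
  let b : Y → X × T → (H → Q) := fun y i h => A ((i.2 : FreeGroup Y) * FreeGroup.of y * h) i.1
  have ha : ∀ w, FreeGroup.lift a w = 1 ↔ ∀ h : FreeGroup Y, FreeGroup.lift (code h) w = 1 := by
    intro w
    constructor
    · intro h0 h
      obtain ⟨h', hh', he⟩ := hS0' h
      rw [← he]
      have h2 := congrFun h0 ⟨h', Or.inl (Or.inr hh')⟩
      rw [lift_pi] at h2
      exact h2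
    · intro h0
      funext h
      rw [lift_pi]
      exact h0 h
  have hb : ∀ y w, FreeGroup.lift (b y) w = 1 ↔
      ∀ h : FreeGroup Y, FreeGroup.lift (code h) w = 1 := by
    intro y w
    have e : ∀ h : H, FreeGroup.lift (b y) w h =
        FreeGroup.lift (code (FreeGroup.of y * (h : FreeGroup Y))) w := by
      intro h
      rw [lift_pi]
      congr 2
      funext i
      change A (_ * _ * _) _ = A (_ * (_ * _)) _
      rw [mul_assoc]
    constructor
    · intro h0 h
      obtain ⟨h', hh', he⟩ := hS' y ((FreeGroup.of y)⁻¹ * h)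
      simp only [mul_inv_cancel_left] at he
      rw [← he]
      have h2 := congrFun h0 ⟨h', Or.inr (Set.mem_iUnion.mpr ⟨y, hh'⟩)⟩
      rw [e] at h2
      exact h2
    · intro h0
      funext h
      rw [e]
      exact h0 _
  choose π hπ using fun y : Y => exists_conj a (b y) (fun w => (ha w).trans (hb y w).symm)
  let P : FreeGroup Y →* Equiv.Perm (H → Q) := FreeGroup.lift π
  refine ⟨P, ?_⟩
  -- the set of good elements
  let Gd : FreeGroup Y → Prop := fun g => ∀ x,
    (P g)⁻¹ * rho (fun h : H => A ((1 : FreeGroup Y) * h) x) * P g = rho (fun h : H => A (g * h) x)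
  have hP : ∀ y, P (FreeGroup.of y) = π y := fun y => FreeGroup.lift_apply_of
  have step1 : ∀ g y, Gd g → g ∈ T → Gd (g * FreeGroup.of y) := by
    intro g y hg hgT x
    have h2 := hπ y (x, ⟨g, hgT⟩)
    rw [map_mul, mul_inv_rev, hP]
    calc (π y)⁻¹ * (P g)⁻¹ * rho (fun h : H => A ((1 : FreeGroup Y) * h) x) * (P g * π y)
        = (π y)⁻¹ * ((P g)⁻¹ * rho (fun h : H => A ((1 : FreeGroup Y) * h) x) * P g) * π y := by
          group
      _ = (π y)⁻¹ * rho (fun h : H => A (g * h) x) * π y := by rw [hg x]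
      _ = _ := h2
  have step2 : ∀ g y, Gd g → g * (FreeGroup.of y)⁻¹ ∈ T → Gd (g * (FreeGroup.of y)⁻¹) := by
    intro g y hg hgT x
    have h2 := hπ y (x, ⟨_, hgT⟩)
    have h3 : b y (x, ⟨_, hgT⟩) = fun h : H => A (g * h) x := by
      funext h
      change A (g * (FreeGroup.of y)⁻¹ * FreeGroup.of y * h) x = A (g * h) x
      rw [inv_mul_cancel_right]
    rw [h3] at h2
    rw [map_mul, mul_inv_rev, map_inv, hP, inv_inv]
    calc π y * (P g)⁻¹ * rho (fun h : H => A ((1 : FreeGroup Y) * h) x) * (P g * (π y)⁻¹)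
        = π y * ((P g)⁻¹ * rho (fun h : H => A ((1 : FreeGroup Y) * h) x) * P g) * (π y)⁻¹ := by
          group
      _ = π y * rho (fun h : H => A (g * h) x) * (π y)⁻¹ := by rw [hg x]
      _ = π y * ((π y)⁻¹ * rho (a (x, ⟨_, hgT⟩)) * π y) * (π y)⁻¹ := by rw [h2]
      _ = rho (a (x, ⟨_, hgT⟩)) := by group
  have key : ∀ L : List (Y × Bool), (∀ p ∈ L.inits, FreeGroup.mk p ∈ T) → Gd (FreeGroup.mk L) := by
    intro L
    induction L using List.reverseRecOn with
    | nil =>
      intro _ x
      have : (FreeGroup.mk ([] : List (Y × Bool))) = 1 := rfl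
      rw [this, map_one]
      simp
    | append_singleton L a ih =>
      intro hL
      have hL1 : ∀ p ∈ L.inits, FreeGroup.mk p ∈ T := by
        intro p hp
        apply hL
        rw [List.mem_inits] at hp ⊢
        exact hp.trans ⟨_, rfl⟩
      have h1 := ih hL1
      have h2 : FreeGroup.mk L ∈ T := hL1 L (by rw [List.mem_inits])
      have h3 : FreeGroup.mk (L ++ [a]) ∈ T := hL _ (by rw [List.mem_inits])
      obtain ⟨y, b⟩ := a
      cases b with
      | true =>
        have e : FreeGroup.mk (L ++ [(y, true)]) = FreeGroup.mk L * FreeGroup.of y := rfl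
        rw [e]
        exact step1 _ y h1 h2
      | false =>
        have e : FreeGroup.mk (L ++ [(y, false)]) = FreeGroup.mk L * (FreeGroup.of y)⁻¹ := rfl
        rw [e] at h3 ⊢
        exact step2 _ y h1 h3
  intro g hg
  have h4 : Gd (FreeGroup.mk g.toWord) := by
    apply key
    intro p hp
    exact Set.mem_biUnion hg ⟨p, hp, rfl⟩
  rw [FreeGroup.mk_toWord] at h4
  exact h4

end Pool.Agent.Helper68.FR
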